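import Pool.Agent.Helper40.CN.CHAIN
import Pool.Agent.Helper4.CN.SZ
import Pool.Agent.Helper6.CNC.HALL
import Pool.Agent.Helper6.CNC.KEY
import Pool.Agent.Helper18.CN.KK
import Pool.Agent.Helper18.CN.MAX
import Pool.Agent.Helper18.CN.WX
import Pool.Agent.Helper19.CN.DIFF
import Pool.Agent.Helper19.CN.FCC
import Pool.Agent.Helper19.CN.NFS
import Pool.Agent.Helper19.CN.UNI
import Pool.Agent.Helper27.CN.FB
import Pool.Agent.Helper27.CN.FD
import Pool.Agent.Helper27.CN.PC
import Pool.Agent.Helper27.CN.PET
import Pool.Agent.Helper32.CN.NO0
import Pool.Agent.Helper33.CN.CANT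
import Pool.Agent.Helper33.CN.CONC
import Pool.Agent.Helper33.CN.RED
import Pool.Agent.Helper57.CN.ABS
import Pool.Agent.Helper71.CN.CL
import Pool.Agent.Helper71.CN.FIT
import Pool.Agent.Helper71.CN.NF
import Pool.Agent.Helper85.CN.AR
import Pool.Agent.Helper85.CN.NOS
import Pool.Agent.Helper91.CN.FIN
import Pool.Agent.Helper91.CN.T1

set_option autoImplicit false

/-!
# Every word is strongly concise in the profinite virtually abelian-by-nilpotent groups

Theorem: let `G` be a profinite group with an open subgroup `H` and a closed normal abelian subgroup `A` of `H` such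
that `H/A` is nilpotent (no finite generation is assumed), and let `w` be a word with fewer than continuum many values
in `G`.  Then the verbal subgroup `w(G)` is finite.

Idea of the proof.  We may assume that `A` is normal in `G`; let `N` be an open normal subgroup which is nilpotent
modulo `A`, `X = N^k` and `g ∈ G^k`.

(1) Baire category (DIFF): if `E` is a continuous map on `X` with fewer than continuum many values and all differences
`E(x)⁻¹ E(xh)` have finitely many values, then `E` has finitely many values.

(2) The group of the maps `X → G/A` generated by the constants and the coordinates has a finite chain of subgroups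
starting with the constants, such that taking differences leads from each member to the one before (CHAIN, from
P. Hall's nilpotency criterion).  With (1) the word `w` has finitely many values modulo `A`, so (for a smaller `N`) we
have to study `E(u) = w(g)⁻¹ w(gu)`, a map from `X` to `A`.

(3) By (1) the values of `w` have finitely many conjugates.  So the map `E` may be multiplied (with respect to the
action of `G/A` on `A`) by the inverse of a map `ψ : X → G` without spoiling the hypothesis and the conclusion.
Using a derivation `m` of `G` with values in the coinduced module `A^(G/A)` (the embedding of Kaloujnine and Krasner)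
`E(u)` is a sum of terms `ψ(u) m(u_i)` and `ψ(u) b` with `ψ` as in (2).  Bergelson's PET induction (PC, PET), where we
multiply by the inverse of a `ψ` of minimal degree and then take differences, now shows that `E` has
finitely many values.  So `w` has finitely many values in `G`.

(4) Let `w` have finitely many values.  There is a normal subgroup `K` of finite index such that `w(gu) = w(g)` for
`u ∈ K^k`, and which centralises `w(G)`; so we may replace `G` by an abstract group generated by finitely many
elements.  Let `q` be a prime which does not divide the index of `K`.  P. Hall's theorems (max-n and the Artin-Rees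
property) give a normal subgroup `M` of `G` in `K` such that `K/M` is a finite `q`-group and `M ∩ B = B^q` for the
finitely generated abelian group `B = w(G) ∩ K`.  By Schur-Zassenhaus there is a subgroup `L` with `LK = G` and
`L ∩ K = M`.  So `w(G) = w(L)` is contained in `L`, so `B = B^q`, so `B` and `w(G)` are finite.

Author: helper40 (proof, statements of the parts, parts HC, HX, CHAIN).  The same proof was found independently by
helper46.  The other parts were proved by helper4 (SZ),
helper6 (HALL, KEY), helper18 (KK, MAX, WX), helper19 (DIFF, FCC, NFS, UNI), helper27 (FB, FD, PC, PET),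
helper32 (NO0), helper33 (CANT, CON, RED), helper57 (ABS), helper71 (CL, FIT, NF), helper85 (AR, NOS) and
helper91 (FIN, T1).
-/

namespace Pool.Agent.Results.MP_349281_al.StrongConciseness

universe u

open Pool.Agent.Helper40.CN

/-- **Every word is strongly concise in the class of all profinite virtually abelian-by-nilpotent groups.** -/
theorem result : ∀ (k : ℕ) (w : FreeGroup (Fin k)) (G : Type u) [Group G] [TopologicalSpace G]
    [IsTopologicalGroup G] [CompactSpace G] [T2Space G] [TotallyDisconnectedSpace G],
    VirtAbByNilp G → Cardinal.mk (wordValues w G) < Cardinal.continuum →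
    (verbal w G : Set G).Finite := by
  have hCANT : S_CANT.{u} := Pool.Agent.Helper33.CN.cant
  have hDIFF : S_DIFF.{u} := Pool.Agent.Helper19.CN.diff hCANT
  have hFCC : S_FCC.{u} := Pool.Agent.Helper19.CN.fcc hCANT
  have hKK : S_KK.{u} := Pool.Agent.Helper18.CN.kk
  have hCHAIN : S_CHAIN.{u} := chain (hx hc)
  have hFB : S_FB.{u} := Pool.Agent.Helper27.CN.fb
  have hPET : S_PET.{u} := Pool.Agent.Helper27.CN.pet Pool.Agent.Helper27.CN.pc hFB
    Pool.Agent.Helper27.CN.fd hDIFF
  have hUNI : S_UNI.{u} := Pool.Agent.Helper19.CN.uni
  have hFIN : S_FIN.{u} := Pool.Agent.Helper91.CN.fin hCHAIN (Pool.Agent.Helper91.CN.t1 hDIFF)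
    (Pool.Agent.Helper18.CN.wx hFB) hUNI hKK hFCC hPET
  have hMAX : S_MAX.{u} := Pool.Agent.Helper18.CN.max
  have hCL : S_CL.{u} := Pool.Agent.Helper71.CN.cl hMAX
  have hHALL : S_HALL.{u} := Pool.Agent.Helper6.CNC.HALL.hall hCL Pool.Agent.Helper19.CN.nfs
    Pool.Agent.Helper32.CN.no0 Pool.Agent.Helper85.CN.nos hMAX
  have hAR : S_AR.{u} := Pool.Agent.Helper85.CN.ar hCL Pool.Agent.Helper71.CN.fit
  have hNF : S_NF.{u} := Pool.Agent.Helper71.CN.nf hMAX hCL
  have hKEY : S_KEY.{u} := Pool.Agent.Helper6.CNC.KEY.key hHALL hAR hNF
  have hABS : S_ABS.{u} := Pool.Agent.Helper57.CN.abs hKEY Pool.Agent.Helper4.CN.sz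
  have hCON : S_CON.{u} := Pool.Agent.Helper33.CN.con hUNI hABS
  intro k w G _ _ _ _ _ _ hG hw
  obtain ⟨A, N, hA, hN, hAc, hNo, hab, hnil⟩ := Pool.Agent.Helper33.CN.red G hG
  exact hCON G A N hAc hNo hab hnil k w (hFIN G A N hAc hNo hab hnil k w hw)

end Pool.Agent.Results.MP_349281_al.StrongConciseness
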